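import Pool.Agent.Q18.PMI4

/-!
# Identities of mutations of perm algebras

Every polynomial identity satisfied by all mutations of all perm algebras over a field of
characteristic zero follows from the six known ones.
-/

namespace Pool.Agent.Results.MP_e9cf85_al.PermMutations

open Polynomial

universe u

set_option linter.unusedSimpArgs false

/-- the mutated product `⟨x, y⟩ = (x p) y - (y q) x` -/
def mutMul {P : Type u} [NonUnitalRing P] (p q x y : P) : P := (x * p) * y - (y * q) * x

/-- The `(p,q)`-mutation of an associative algebra `P`: the same vector space with the product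
`⟨x, y⟩ = (x p) y - (y q) x`. -/
def Mutation (P : Type u) [NonUnitalRing P] (_p _q : P) : Type u := P

namespace Mutation

variable {F P : Type u} [NonUnitalRing P] {p q : P}

instance : AddCommGroup (Mutation P p q) := inferInstanceAs (AddCommGroup P)

instance : Mul (Mutation P p q) := ⟨fun x y => mutMul (P := P) p q x y⟩

instance : NonUnitalNonAssocRing (Mutation P p q) :=
  { (inferInstance : AddCommGroup (Mutation P p q)),
    (inferInstance : Mul (Mutation P p q)) with
    left_distrib := by
      have h : ∀ a b c : P, mutMul p q a (b + c) = mutMul p q a b + mutMul p q a c := by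
        intro a b c
        simp only [mutMul, mul_add, add_mul]; abel
      exact h
    right_distrib := by
      have h : ∀ a b c : P, mutMul p q (a + b) c = mutMul p q a c + mutMul p q b c := by
        intro a b c
        simp only [mutMul, mul_add, add_mul]; abel
      exact h
    zero_mul := by
      have h : ∀ a : P, mutMul p q 0 a = 0 := by intro a; simp [mutMul]
      exact h
    mul_zero := by
      have h : ∀ a : P, mutMul p q a 0 = 0 := by intro a; simp [mutMul]
      exact h }

variable [Field F] [Module F P]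

instance : Module F (Mutation P p q) := inferInstanceAs (Module F P)

instance [IsScalarTower F P P] [SMulCommClass F P P] :
    IsScalarTower F (Mutation P p q) (Mutation P p q) := by
  have h : ∀ (c : F) (a b : P), mutMul p q (c • a) b = c • mutMul p q a b := by
    intro c a b
    simp only [mutMul, smul_mul_assoc, mul_smul_comm, smul_sub]
  exact ⟨h⟩

instance [IsScalarTower F P P] [SMulCommClass F P P] :
    SMulCommClass F (Mutation P p q) (Mutation P p q) := by
  have h : ∀ (c : F) (a b : P), c • mutMul p q a b = mutMul p q a (c • b) := by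
    intro c a b
    simp only [mutMul, smul_mul_assoc, mul_smul_comm, smul_sub]
  exact ⟨h⟩

end Mutation

/-- the free nonassociative `F`-algebra on countably many variables -/
abbrev Free (F : Type u) [Field F] : Type u := FreeNonUnitalNonAssocAlgebra F ℕ

section Polys

variable (F : Type u) [Field F]

/-- the variables -/
noncomputable abbrev X' (i : ℕ) : Free F := FreeNonUnitalNonAssocAlgebra.of F i

variable {F}

/-- the associator -/
noncomputable def ass (x y z : Free F) : Free F := (x * y) * z - x * (y * z)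

/-- the symmetrised product -/
noncomputable def bul (x y : Free F) : Free F := x * y + y * x

variable (F)

/-- `f` -/
noncomputable def polyF : Free F :=
  ∑ σ : Equiv.Perm (Fin 3), (Equiv.Perm.sign σ : ℤ) •
    ((X' F (σ 0) * X' F (σ 1)) * X' F (σ 2))

/-- `WA` -/
noncomputable def polyWA : Free F :=
  ass (X' F 0) (X' F 1) (X' F 2) + ass (X' F 1) (X' F 2) (X' F 0) - ass (X' F 1) (X' F 0) (X' F 2)

/-- `H̄` -/
noncomputable def polyH : Free F :=
  ∑ σ : Equiv.Perm (Fin 3),
    ((X' F (σ 0) * X' F (σ 1)) * (X' F (σ 2) * X' F 3) -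
      X' F (σ 0) * ((X' F (σ 1) * X' F (σ 2)) * X' F 3))

/-- `Ī` -/
noncomputable def polyI : Free F :=
  ass (X' F 1) (bul (X' F 0) (X' F 3)) (X' F 2) - bul (ass (X' F 1) (X' F 3) (X' F 2)) (X' F 0) -
    bul (ass (X' F 1) (X' F 0) (X' F 2)) (X' F 3)

/-- `g₁`, in the variables `a, b, c, d = 0, 1, 2, 3` -/
noncomputable def polyG1 : Free F :=
  ((X' F 0 * X' F 1) * X' F 2) * X' F 3 + ((X' F 2 * X' F 3) * X' F 0) * X' F 1 -
    ((X' F 0 * X' F 3) * X' F 2) * X' F 1 - ((X' F 2 * X' F 1) * X' F 0) * X' F 3

/-- `g₂`, in the variables `a, b, c, d = 0, 1, 2, 3` -/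
noncomputable def polyG2 : Free F :=
  (X' F 0 * X' F 1) * (X' F 3 * X' F 2) + (X' F 2 * (X' F 1 * X' F 0)) * X' F 3 +
    ((X' F 1 * X' F 0) * X' F 2) * X' F 3 - ((X' F 0 * X' F 1) * X' F 3) * X' F 2 -
    ((X' F 1 * X' F 2) * X' F 0) * X' F 3 - ((X' F 2 * X' F 0) * X' F 1) * X' F 3

end Polys

/-- `g` is an identity of all mutations of all perm algebras over `F`. -/
def IsMutationIdentity (F : Type u) [Field F] (g : Free F) : Prop :=
  ∀ (P : Type u) [NonUnitalRing P] [Module F P] [IsScalarTower F P P] [SMulCommClass F P P],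
    (∀ a b c : P, a * b * c = b * a * c) →
    ∀ (p q : P) (φ : ℕ → Mutation P p q), FreeNonUnitalNonAssocAlgebra.lift F φ g = 0

/-- A subspace of the free algebra which is a two-sided ideal closed under all substitutions. -/
structure IsTIdeal {F : Type u} [Field F] (I : Submodule F (Free F)) : Prop where
  mul_left : ∀ a b : Free F, b ∈ I → a * b ∈ I
  mul_right : ∀ a b : Free F, a ∈ I → a * b ∈ I
  subst : ∀ (φ : ℕ → Free F) (a : Free F), a ∈ I → FreeNonUnitalNonAssocAlgebra.lift F φ a ∈ I

/-- `g` lies in the T-ideal generated by `S`. -/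
def IsConsequence {F : Type u} [Field F] (S : Set (Free F)) (g : Free F) : Prop :=
  ∀ I : Submodule F (Free F), IsTIdeal I → S ⊆ I → g ∈ I

noncomputable section Quot

variable {F : Type u} [Field F]

/-- the quotient by a T-ideal -/
def Qt {I : Submodule F (Free F)} (_hI : IsTIdeal I) : Type u := Free F ⧸ I

variable {I : Submodule F (Free F)} (hI : IsTIdeal I)

instance : AddCommGroup (Qt hI) := inferInstanceAs (AddCommGroup (Free F ⧸ I))
instance : Module F (Qt hI) := inferInstanceAs (Module F (Free F ⧸ I))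

/-- the projection -/
def qmk : Free F →ₗ[F] Qt hI := I.mkQ

theorem qmk_surj (a : Qt hI) : ∃ b, qmk hI b = a := I.mkQ_surjective a

theorem qmk_eq_zero {a : Free F} : qmk hI a = 0 ↔ a ∈ I := Submodule.Quotient.mk_eq_zero I

/-- multiplication on the quotient -/
def qmul : Qt hI →ₗ[F] Qt hI →ₗ[F] Qt hI :=
  I.liftQ (LinearMap.mk₂ F (fun a (b : Qt hI) =>
      (I.liftQ ((qmk hI).comp (LinearMap.mulLeft F a)) (by
        intro b hb
        rw [LinearMap.mem_ker, LinearMap.comp_apply, qmk_eq_zero]
        exact hI.mul_left _ _ hb) : Qt hI →ₗ[F] Qt hI) b)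
      (by
        intro a a' b
        obtain ⟨b, rfl⟩ := qmk_surj hI b
        change qmk hI ((a + a') * b) = qmk hI (a * b) + qmk hI (a' * b)
        rw [add_mul, map_add])
      (by
        intro c a b
        obtain ⟨b, rfl⟩ := qmk_surj hI b
        change qmk hI ((c • a) * b) = c • qmk hI (a * b)
        rw [smul_mul_assoc, map_smul])
      (fun a b b' => map_add _ _ _)
      (fun c a b => map_smul _ _ _)) (by
    intro a ha
    rw [LinearMap.mem_ker]
    ext b
    obtain ⟨b, rfl⟩ := qmk_surj hI b
    change qmk hI (a * b) = 0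
    rw [qmk_eq_zero]
    exact hI.mul_right _ _ ha)

instance : Mul (Qt hI) := ⟨fun a b => qmul hI a b⟩

theorem qmk_mul (a b : Free F) : qmk hI (a * b) = qmk hI a * qmk hI b := rfl

instance : NonUnitalNonAssocRing (Qt hI) :=
  { (inferInstance : AddCommGroup (Qt hI)),
    (inferInstance : Mul (Qt hI)) with
    left_distrib := by intro a b c; exact (qmul hI a).map_add b c
    right_distrib := by intro a b c; exact LinearMap.map_add₂ (qmul hI) a b c
    zero_mul := by intro a; exact LinearMap.map_zero₂ (qmul hI) a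
    mul_zero := by intro a; exact (qmul hI a).map_zero }

instance : IsScalarTower F (Qt hI) (Qt hI) :=
  ⟨fun c a b => LinearMap.map_smul₂ (qmul hI) c a b⟩

instance : SMulCommClass F (Qt hI) (Qt hI) :=
  ⟨fun c a b => ((qmul hI a).map_smul c b).symm⟩

end Quot

open Pool.Agent.Q18.PM

section Sub

variable {F : Type u} [Field F]

theorem univ_perm3 : (Finset.univ : Finset (Equiv.Perm (Fin 3))) =
    {1, Equiv.swap 0 1, Equiv.swap 0 2, Equiv.swap 1 2,
      Equiv.swap 0 1 * Equiv.swap 1 2, Equiv.swap 1 2 * Equiv.swap 0 1} := by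
  decide

theorem sum_perm3 {M : Type*} [AddCommGroup M] (g : Equiv.Perm (Fin 3) → M) :
    ∑ σ, g σ = g 1 + (g (Equiv.swap 0 1) + (g (Equiv.swap 0 2) + (g (Equiv.swap 1 2) +
      (g (Equiv.swap 0 1 * Equiv.swap 1 2) + g (Equiv.swap 1 2 * Equiv.swap 0 1))))) := by
  rw [univ_perm3, Finset.sum_insert (by decide), Finset.sum_insert (by decide),
    Finset.sum_insert (by decide), Finset.sum_insert (by decide), Finset.sum_insert (by decide),
    Finset.sum_singleton]

theorem polyF_eq : polyF F = pf (X' F 0) (X' F 1) (X' F 2) := by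
  rw [polyF, sum_perm3]
  have s1 : Equiv.Perm.sign (Equiv.swap (0 : Fin 3) 1) = -1 := by decide
  have s2 : Equiv.Perm.sign (Equiv.swap (0 : Fin 3) 2) = -1 := by decide
  have s3 : Equiv.Perm.sign (Equiv.swap (1 : Fin 3) 2) = -1 := by decide
  have s4 : Equiv.Perm.sign (Equiv.swap (0 : Fin 3) 1 * Equiv.swap 1 2) = 1 := by decide
  have s5 : Equiv.Perm.sign (Equiv.swap (1 : Fin 3) 2 * Equiv.swap 0 1) = 1 := by decide
  have a1 : (Equiv.swap (0 : Fin 3) 1) 0 = 1 := by decide
  have a2 : (Equiv.swap (0 : Fin 3) 1) 1 = 0 := by decide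
  have a3 : (Equiv.swap (0 : Fin 3) 1) 2 = 2 := by decide
  have b1 : (Equiv.swap (0 : Fin 3) 2) 0 = 2 := by decide
  have b2 : (Equiv.swap (0 : Fin 3) 2) 1 = 1 := by decide
  have b3 : (Equiv.swap (0 : Fin 3) 2) 2 = 0 := by decide
  have c1 : (Equiv.swap (1 : Fin 3) 2) 0 = 0 := by decide
  have c2 : (Equiv.swap (1 : Fin 3) 2) 1 = 2 := by decide
  have c3 : (Equiv.swap (1 : Fin 3) 2) 2 = 1 := by decide
  simp only [s1, s2, s3, s4, s5, a1, a2, a3, b1, b2, b3, c1, c2, c3, Equiv.Perm.sign_one,
    Equiv.Perm.one_apply, Equiv.Perm.mul_apply, Units.val_neg, Units.val_one, neg_smul, one_smul]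
  simp only [pf, Fin.val_zero, Fin.val_one, Fin.val_two]
  abel

variable {B : Type u} [NonUnitalNonAssocRing B] [Module F B] [IsScalarTower F B B]
  [SMulCommClass F B B]

theorem lift_X (φ : ℕ → B) (i : ℕ) : FreeNonUnitalNonAssocAlgebra.lift F φ (X' F i) = φ i :=
  FreeNonUnitalNonAssocAlgebra.lift_of_apply F φ i

theorem lift_F (φ : ℕ → B) : FreeNonUnitalNonAssocAlgebra.lift F φ (polyF F) =
    pf (φ 0) (φ 1) (φ 2) := by
  rw [polyF_eq]
  simp only [pf, map_add, map_sub, map_mul, lift_X]

theorem lift_WA (φ : ℕ → B) : FreeNonUnitalNonAssocAlgebra.lift F φ (polyWA F) =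
    pw (φ 0) (φ 1) (φ 2) := by
  simp only [polyWA, ass, pw, pas, map_add, map_sub, map_mul, lift_X]

theorem lift_G1 (φ : ℕ → B) : FreeNonUnitalNonAssocAlgebra.lift F φ (polyG1 F) =
    pg1 (φ 0) (φ 1) (φ 2) (φ 3) := by
  simp only [polyG1, pg1, map_add, map_sub, map_mul, lift_X]

theorem lift_G2 (φ : ℕ → B) : FreeNonUnitalNonAssocAlgebra.lift F φ (polyG2 F) =
    pg2 (φ 0) (φ 1) (φ 2) (φ 3) := by
  simp only [polyG2, pg2, map_add, map_sub, map_mul, lift_X]

/-- the values at given elements -/
def vals (a b c d : B) : ℕ → B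
  | 0 => a
  | 1 => b
  | 2 => c
  | _ => d

theorem ids_quot [CharZero F] {I : Submodule F (Free F)} (hI : IsTIdeal I)
    (h : ({polyF F, polyWA F, polyG1 F, polyG2 F} : Set (Free F)) ⊆ I) : Ids (Qt hI) := by
  have hF : polyF F ∈ I := h (by simp)
  have hW : polyWA F ∈ I := h (by simp)
  have hG1 : polyG1 F ∈ I := h (by simp)
  have hG2 : polyG2 F ∈ I := h (by simp)
  refine ⟨?_, ?_, ?_, ?_, ?_⟩
  · intro a b c
    obtain ⟨a, rfl⟩ := qmk_surj hI a
    obtain ⟨b, rfl⟩ := qmk_surj hI b
    obtain ⟨c, rfl⟩ := qmk_surj hI c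
    have e := hI.subst (vals a b c c) _ hF
    rw [lift_F] at e
    rw [← qmk_eq_zero hI] at e
    simpa only [vals, pf, map_add, map_sub, qmk_mul] using e
  · intro a b c
    obtain ⟨a, rfl⟩ := qmk_surj hI a
    obtain ⟨b, rfl⟩ := qmk_surj hI b
    obtain ⟨c, rfl⟩ := qmk_surj hI c
    have e := hI.subst (vals a b c c) _ hW
    rw [lift_WA] at e
    rw [← qmk_eq_zero hI] at e
    simpa only [vals, pw, pas, map_add, map_sub, qmk_mul] using e
  · intro a b c d
    obtain ⟨a, rfl⟩ := qmk_surj hI a
    obtain ⟨b, rfl⟩ := qmk_surj hI b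
    obtain ⟨c, rfl⟩ := qmk_surj hI c
    obtain ⟨d, rfl⟩ := qmk_surj hI d
    have e := hI.subst (vals a b c d) _ hG1
    rw [lift_G1] at e
    rw [← qmk_eq_zero hI] at e
    simpa only [vals, pg1, map_add, map_sub, qmk_mul] using e
  · intro a b c d
    obtain ⟨a, rfl⟩ := qmk_surj hI a
    obtain ⟨b, rfl⟩ := qmk_surj hI b
    obtain ⟨c, rfl⟩ := qmk_surj hI c
    obtain ⟨d, rfl⟩ := qmk_surj hI d
    have e := hI.subst (vals a b c d) _ hG2
    rw [lift_G2] at e
    rw [← qmk_eq_zero hI] at e
    simpa only [vals, pg2, map_add, map_sub, qmk_mul] using e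
  · intro n a hn e
    rw [← Int.cast_smul_eq_zsmul F] at e
    rcases smul_eq_zero.1 e with h1 | h1
    · exact absurd (Int.cast_eq_zero.1 h1) hn
    · exact h1

end Sub

/-! ### the generic model -/

section Model

variable (F : Type u) [Field F]

/-- coefficient ring of the model -/
abbrev Cf : Type u := AddMonoidAlgebra F[X] (Multiset ℕ)

/-- the perm algebra of the model: `m m' = s(m) m'` with `s` the sum of the coordinates -/
def Md : Type u := ℕ →₀ Cf F

namespace Md

noncomputable section

instance : AddCommGroup (Md F) := inferInstanceAs (AddCommGroup (ℕ →₀ Cf F))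
instance : Module (Cf F) (Md F) := inferInstanceAs (Module (Cf F) (ℕ →₀ Cf F))
instance : Module F (Md F) := inferInstanceAs (Module F (ℕ →₀ Cf F))
instance : IsScalarTower F (Cf F) (Md F) := inferInstanceAs (IsScalarTower F (Cf F) (ℕ →₀ Cf F))
instance : SMulCommClass F (Cf F) (Md F) := inferInstanceAs (SMulCommClass F (Cf F) (ℕ →₀ Cf F))

/-- the sum of the coordinates -/
def s : Md F →ₗ[Cf F] Cf F := sig (Cf F)

variable {F}

/-- the product -/
def pr (a b : Md F) : Md F := s F a • b

instance : Mul (Md F) := ⟨pr⟩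

theorem mul_eq (a b : Md F) : a * b = s F a • b := rfl

instance : NonUnitalRing (Md F) :=
  { (inferInstance : AddCommGroup (Md F)),
    (inferInstance : Mul (Md F)) with
    left_distrib := by intro a b c; simp only [mul_eq, smul_add]
    right_distrib := by intro a b c; simp only [mul_eq, map_add, add_smul]
    zero_mul := by intro a; rw [mul_eq, map_zero, zero_smul]
    mul_zero := by intro a; rw [mul_eq, smul_zero]
    mul_assoc := by
      intro a b c
      rw [mul_eq (a * b), mul_eq a b, mul_eq a, mul_eq b, map_smul, smul_smul, smul_eq_mul] }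

theorem s_smul (c : F) (a : Md F) : s F (c • a) = c • s F a := by
  rw [← one_smul (Cf F) a, ← smul_assoc, map_smul, map_smul, smul_assoc]

instance : IsScalarTower F (Md F) (Md F) := by
  constructor
  intro c a b
  rw [smul_eq_mul, smul_eq_mul, mul_eq, mul_eq, s_smul, smul_assoc]

instance : SMulCommClass F (Md F) (Md F) := by
  constructor
  intro c a b
  rw [smul_eq_mul, smul_eq_mul, mul_eq, mul_eq]
  exact smul_comm _ _ _

theorem perm (a b c : Md F) : a * b * c = b * a * c := by
  simp only [mul_eq, map_smul, smul_eq_mul, mul_comm]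

/-- the embedding of weight vectors in a given multidegree -/
def emb (m : Multiset ℕ) : (ℕ →₀ F[X]) →+ Md F :=
  Finsupp.mapRange.addMonoidHom (AddMonoidAlgebra.singleAddHom m)

theorem emb_apply (m : Multiset ℕ) (w : ℕ →₀ F[X]) (j : ℕ) :
    (show ℕ →₀ Cf F from emb m w) j = AddMonoidAlgebra.single m (w j) := rfl

theorem emb_single (m : Multiset ℕ) (i : ℕ) (r : F[X]) :
    emb m (Finsupp.single i r) =
      (Finsupp.single i (AddMonoidAlgebra.single m r : Cf F) : ℕ →₀ Cf F) :=
  Finsupp.mapRange_single (hf := AddMonoidAlgebra.single_zero m)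

theorem s_emb (m : Multiset ℕ) (w : ℕ →₀ F[X]) :
    s F (emb m w) = AddMonoidAlgebra.single m (sig F[X] w) := by
  induction w using Finsupp.induction_linear with
  | zero => simp
  | add f g hf hg => rw [map_add, map_add, hf, hg, map_add, AddMonoidAlgebra.single_add]
  | single i r =>
    rw [emb_single, sig_single]
    exact sig_single _ _ _

theorem smul_emb (m m' : Multiset ℕ) (r : F[X]) (w : ℕ →₀ F[X]) :
    (AddMonoidAlgebra.single m r : Cf F) • emb m' w = emb (m + m') (r • w) := by
  induction w using Finsupp.induction_linear with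
  | zero => simp
  | add f g hf hg => rw [map_add, smul_add, hf, hg, smul_add, map_add]
  | single i t =>
    rw [emb_single, Finsupp.smul_single, emb_single]
    change (AddMonoidAlgebra.single m r : Cf F) •
      (Finsupp.single i (AddMonoidAlgebra.single m' t : Cf F) : ℕ →₀ Cf F) = _
    rw [Finsupp.smul_single, smul_eq_mul, AddMonoidAlgebra.single_mul_single, smul_eq_mul]

/-- the first mutation parameter -/
def pp : Md F := emb 0 (Finsupp.single 0 (uu F))
/-- the second mutation parameter -/
def qq : Md F := emb 0 (Finsupp.single 0 (-vv F))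

/-- the generic substitution -/
def ph (i : ℕ) : Mutation (Md F) (pp : Md F) qq := emb {i} (Finsupp.single i 1)

theorem mutMul_emb [CharZero F] (m m' : Multiset ℕ) (w w' : ℕ →₀ F[X]) (hw : sig F[X] w = 1)
    (hw' : sig F[X] w' = 1) :
    mutMul (pp : Md F) qq (emb m w) (emb m' w') = emb (m + m') (vv F • w + uu F • w') := by
  rw [mutMul, mul_eq, mul_eq (emb m w), mul_eq (emb m' w' * qq), mul_eq (emb m' w'), map_smul,
    map_smul, pp, qq, s_emb, s_emb, s_emb, s_emb, hw, hw', sig_single, sig_single]
  simp only [smul_eq_mul, AddMonoidAlgebra.single_mul_single, add_zero, one_mul]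
  rw [smul_emb, smul_emb, neg_smul, map_neg, sub_neg_eq_add, add_comm m' m, add_comm (emb _ _),
    ← map_add]

theorem ev_ph [CharZero F] (t : FreeMagma ℕ) :
    ev (ph (F := F)) t = (emb (lt t) (wt F t) : Md F) := by
  induction t with
  | ih1 i => rfl
  | ih2 s t hs ht =>
    rw [ev_mul, hs, ht]
    rw [lt_mul, wt_mul]
    exact mutMul_emb _ _ _ _ (sig_wt s) (sig_wt t)

end

end Md

end Model

section Lift

variable {F : Type u} [Field F]
variable {B : Type u} [NonUnitalNonAssocRing B] [Module F B] [IsScalarTower F B B]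
  [SMulCommClass F B B]

theorem freeMagma_lift (φ : ℕ → B) (t : FreeMagma ℕ) : FreeMagma.lift φ t = ev φ t := by
  induction t with
  | ih1 i => rfl
  | ih2 s t hs ht => rw [map_mul, hs, ht, ev_mul]

theorem lift_eq (φ : ℕ → B) (g : Free F) : FreeNonUnitalNonAssocAlgebra.lift F φ g =
    ∑ t ∈ g.coeff.support, g.coeff t • ev φ t := by
  have : FreeNonUnitalNonAssocAlgebra.lift F φ g =
    g.coeff.sum fun t c => c • FreeMagma.lift φ t := rfl
  rw [this, Finsupp.sum]
  exact Finset.sum_congr rfl fun t _ => by rw [freeMagma_lift]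

end Lift

section Main

variable {F : Type u} [Field F]

/-- coordinates of the model -/
noncomputable def Md.cf (j : ℕ) (m : Multiset ℕ) : Md F →ₗ[F] F[X] where
  toFun w := ((show ℕ →₀ Cf F from w) j).coeff m
  map_add' _ _ := rfl
  map_smul' _ _ := rfl

theorem Md.cf_emb (j : ℕ) (m m' : Multiset ℕ) (w : ℕ →₀ F[X]) :
    Md.cf j m (Md.emb m' w) = if m' = m then w j else 0 := by
  change (AddMonoidAlgebra.single m' (w j) : Cf F).coeff m = _
  rw [AddMonoidAlgebra.coeff_single, Finsupp.single_apply]

theorem weights_zero [CharZero F] {g : Free F} (hg : IsMutationIdentity F g) (m : Multiset ℕ) :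
    ∑ t ∈ g.coeff.support with lt t = m, g.coeff t • wt F t = 0 := by
  classical
  have h := hg (Md F) Md.perm Md.pp Md.qq Md.ph
  rw [lift_eq] at h
  have h' : ∑ t ∈ g.coeff.support, g.coeff t • (Md.emb (lt t) (wt F t) : Md F) = 0 := by
    refine Eq.trans ?_ h
    exact Finset.sum_congr rfl fun t _ => by rw [Md.ev_ph]; rfl
  ext1 j
  have h2 := congrArg (Md.cf j m) h'
  rw [map_sum, map_zero] at h2
  simp only [map_smul, Md.cf_emb] at h2
  rw [Finsupp.finsetSum_apply, Finset.sum_filter]
  simp only [Finsupp.coe_zero, Pi.zero_apply]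
  refine Eq.trans (Finset.sum_congr rfl fun t _ => ?_) h2
  split_ifs with ht
  · rw [Finsupp.smul_apply]
  · rw [smul_zero]

/-- the projection as a homomorphism of algebras -/
noncomputable def qhom {I : Submodule F (Free F)} (hI : IsTIdeal I) : Free F →ₙₐ[F] Qt hI where
  toFun := qmk hI
  map_smul' := (qmk hI).map_smul
  map_zero' := (qmk hI).map_zero
  map_add' := (qmk hI).map_add
  map_mul' := qmk_mul hI

theorem main [CharZero F] {g : Free F} (hg : IsMutationIdentity F g) :
    IsConsequence {polyF F, polyWA F, polyG1 F, polyG2 F} g := by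
  intro I hI hS
  have h := ids_quot hI hS
  have h1 := key2 (F := F) (x := fun i => qmk hI (X' F i)) h g.coeff.support g.coeff
    (weights_zero hg)
  rw [← lift_eq] at h1
  rw [← qmk_eq_zero hI, ← h1]
  have h2 := FreeNonUnitalNonAssocAlgebra.lift_comp_of F (qhom hI)
  exact (congrArg (fun ψ => ψ g) h2).symm

/-! ### the six identities hold in all mutations -/

section HoldDefs

variable {F : Type u} [Field F] {B : Type u} [NonUnitalNonAssocRing B]

/-- the polynomial `H̄`, expanded -/
def pH (a b c d : B) : B :=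
  ((a * b) * (c * d) - a * ((b * c) * d)) +
    (((b * a) * (c * d) - b * ((a * c) * d)) +
    (((c * b) * (a * d) - c * ((b * a) * d)) +
    (((a * c) * (b * d) - a * ((c * b) * d)) +
    (((b * c) * (a * d) - b * ((c * a) * d)) +
    ((c * a) * (b * d) - c * ((a * b) * d))))))

/-- the polynomial `Ī`, expanded -/
def pI (a b c d : B) : B :=
  pas b (J a d) c - J (pas b d c) a - J (pas b a c) d

variable [Module F B] [IsScalarTower F B B] [SMulCommClass F B B]

theorem lift_I (φ : ℕ → B) : FreeNonUnitalNonAssocAlgebra.lift F φ (polyI F) =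
    pI (φ 0) (φ 1) (φ 2) (φ 3) := by
  simp only [polyI, ass, bul, pI, J, pas, map_add, map_sub, map_mul, lift_X]

theorem lift_H (φ : ℕ → B) : FreeNonUnitalNonAssocAlgebra.lift F φ (polyH F) =
    pH (φ 0) (φ 1) (φ 2) (φ 3) := by
  rw [polyH, sum_perm3]
  have a1 : (Equiv.swap (0 : Fin 3) 1) 0 = 1 := by decide
  have a2 : (Equiv.swap (0 : Fin 3) 1) 1 = 0 := by decide
  have a3 : (Equiv.swap (0 : Fin 3) 1) 2 = 2 := by decide
  have b1 : (Equiv.swap (0 : Fin 3) 2) 0 = 2 := by decide
  have b2 : (Equiv.swap (0 : Fin 3) 2) 1 = 1 := by decide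
  have b3 : (Equiv.swap (0 : Fin 3) 2) 2 = 0 := by decide
  have c1 : (Equiv.swap (1 : Fin 3) 2) 0 = 0 := by decide
  have c2 : (Equiv.swap (1 : Fin 3) 2) 1 = 2 := by decide
  have c3 : (Equiv.swap (1 : Fin 3) 2) 2 = 1 := by decide
  simp only [a1, a2, a3, b1, b2, b3, c1, c2, c3,
    Equiv.Perm.one_apply, Equiv.Perm.mul_apply, Fin.val_zero, Fin.val_one, Fin.val_two, pH,
    map_add, map_sub, map_mul, lift_X]

end HoldDefs

section Hold

variable {P : Type u} [NonUnitalRing P] {p q : P}

theorem left_comm' (hP : ∀ a b c : P, a * b * c = b * a * c) (a b c : P) :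
    a * (b * c) = b * (a * c) := by rw [← mul_assoc, hP, mul_assoc]

theorem hold_F (hP : ∀ a b c : P, a * b * c = b * a * c) (a b c : P) :
    (show P from pf (A := Mutation P p q) a b c) = 0 := by
  have h : ∀ a b c : P,
      mutMul p q (mutMul p q a b) c + mutMul p q (mutMul p q b c) a +
      mutMul p q (mutMul p q c a) b - mutMul p q (mutMul p q b a) c -
      mutMul p q (mutMul p q a c) b - mutMul p q (mutMul p q c b) a = 0 := by
    intro a b c
    simp only [mutMul, mul_sub, sub_mul, mul_add, add_mul, mul_assoc, left_comm' hP]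
    abel
  exact h a b c

theorem hold_WA (hP : ∀ a b c : P, a * b * c = b * a * c) (a b c : P) :
    (show P from pw (A := Mutation P p q) a b c) = 0 := by
  have h : ∀ a b c : P,
      (mutMul p q (mutMul p q a b) c - mutMul p q a (mutMul p q b c)) +
      (mutMul p q (mutMul p q b c) a - mutMul p q b (mutMul p q c a)) -
      (mutMul p q (mutMul p q b a) c - mutMul p q b (mutMul p q a c)) = 0 := by
    intro a b c
    simp only [mutMul, mul_sub, sub_mul, mul_add, add_mul, mul_assoc, left_comm' hP]
    abel
  exact h a b c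

theorem hold_G1 (hP : ∀ a b c : P, a * b * c = b * a * c) (a b c d : P) :
    (show P from pg1 (A := Mutation P p q) a b c d) = 0 := by
  have h : ∀ a b c d : P,
      mutMul p q (mutMul p q (mutMul p q a b) c) d +
      mutMul p q (mutMul p q (mutMul p q c d) a) b -
      mutMul p q (mutMul p q (mutMul p q a d) c) b -
      mutMul p q (mutMul p q (mutMul p q c b) a) d = 0 := by
    intro a b c d
    simp only [mutMul, mul_sub, sub_mul, mul_add, add_mul, mul_assoc, left_comm' hP]
    abel
  exact h a b c d

theorem hold_G2 (hP : ∀ a b c : P, a * b * c = b * a * c) (a b c d : P) :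
    (show P from pg2 (A := Mutation P p q) a b c d) = 0 := by
  have h : ∀ a b c d : P,
      mutMul p q (mutMul p q a b) (mutMul p q d c) +
      mutMul p q (mutMul p q c (mutMul p q b a)) d +
      mutMul p q (mutMul p q (mutMul p q b a) c) d -
      mutMul p q (mutMul p q (mutMul p q a b) d) c -
      mutMul p q (mutMul p q (mutMul p q b c) a) d -
      mutMul p q (mutMul p q (mutMul p q c a) b) d = 0 := by
    intro a b c d
    simp only [mutMul, mul_sub, sub_mul, mul_add, add_mul, mul_assoc, left_comm' hP]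
    abel
  exact h a b c d

theorem hold_I (hP : ∀ a b c : P, a * b * c = b * a * c) (a b c d : P) :
    (show P from pI (B := Mutation P p q) a b c d) = 0 := by
  have h : ∀ a b c d : P,
      (mutMul p q (mutMul p q b ((mutMul p q a d + mutMul p q d a))) c - mutMul p q b (mutMul p q ((mutMul p q a d + mutMul p q d a)) c)) -
      (mutMul p q ((mutMul p q (mutMul p q b d) c - mutMul p q b (mutMul p q d c))) a + mutMul p q a ((mutMul p q (mutMul p q b d) c - mutMul p q b (mutMul p q d c)))) -
      (mutMul p q ((mutMul p q (mutMul p q b a) c - mutMul p q b (mutMul p q a c))) d + mutMul p q d ((mutMul p q (mutMul p q b a) c - mutMul p q b (mutMul p q a c)))) = 0 := by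
    intro a b c d
    simp only [mutMul, mul_sub, sub_mul, mul_add, add_mul, mul_assoc, left_comm' hP]
    abel
  exact h a b c d

theorem hold_H (hP : ∀ a b c : P, a * b * c = b * a * c) (a b c d : P) :
    (show P from pH (B := Mutation P p q) a b c d) = 0 := by
  have h : ∀ a b c d : P,
      (mutMul p q (mutMul p q a b) (mutMul p q c d) - mutMul p q a (mutMul p q (mutMul p q b c) d)) +
      ((mutMul p q (mutMul p q b a) (mutMul p q c d) - mutMul p q b (mutMul p q (mutMul p q a c) d)) +
      ((mutMul p q (mutMul p q c b) (mutMul p q a d) - mutMul p q c (mutMul p q (mutMul p q b a) d)) +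
      ((mutMul p q (mutMul p q a c) (mutMul p q b d) - mutMul p q a (mutMul p q (mutMul p q c b) d)) +
      ((mutMul p q (mutMul p q b c) (mutMul p q a d) - mutMul p q b (mutMul p q (mutMul p q c a) d)) +
      (mutMul p q (mutMul p q c a) (mutMul p q b d) - mutMul p q c (mutMul p q (mutMul p q a b) d)))))) = 0 := by
    intro a b c d
    simp only [mutMul, mul_sub, sub_mul, mul_add, add_mul, mul_assoc, left_comm' hP]
    abel
  exact h a b c d

end Hold

/-- the identities of a single mutation form a T-ideal -/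
theorem isTIdeal_ker {P : Type u} [NonUnitalRing P] [Module F P] [IsScalarTower F P P]
    [SMulCommClass F P P] (p q : P) :
    IsTIdeal (F := F) (⨅ φ : ℕ → Mutation P p q,
      LinearMap.ker ((FreeNonUnitalNonAssocAlgebra.lift F φ : Free F →ₙₐ[F] Mutation P p q) :
        Free F →ₗ[F] Mutation P p q)) := by
  refine ⟨?_, ?_, ?_⟩
  · intro a b hb
    simp only [Submodule.mem_iInf, LinearMap.mem_ker] at hb ⊢
    intro φ
    have : FreeNonUnitalNonAssocAlgebra.lift F φ b = 0 := hb φ
    change FreeNonUnitalNonAssocAlgebra.lift F φ (a * b) = 0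
    rw [map_mul, this, mul_zero]
  · intro a b ha
    simp only [Submodule.mem_iInf, LinearMap.mem_ker] at ha ⊢
    intro φ
    have : FreeNonUnitalNonAssocAlgebra.lift F φ a = 0 := ha φ
    change FreeNonUnitalNonAssocAlgebra.lift F φ (a * b) = 0
    rw [map_mul, this, zero_mul]
  · intro ψ a ha
    simp only [Submodule.mem_iInf, LinearMap.mem_ker] at ha ⊢
    intro φ
    change FreeNonUnitalNonAssocAlgebra.lift F φ (FreeNonUnitalNonAssocAlgebra.lift F ψ a) = 0
    have e : (FreeNonUnitalNonAssocAlgebra.lift F φ).comp (FreeNonUnitalNonAssocAlgebra.lift F ψ) =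
        FreeNonUnitalNonAssocAlgebra.lift F
          (fun i => FreeNonUnitalNonAssocAlgebra.lift F φ (ψ i)) := by
      apply FreeNonUnitalNonAssocAlgebra.hom_ext
      intro i
      rw [NonUnitalAlgHom.comp_apply, FreeNonUnitalNonAssocAlgebra.lift_of_apply,
        FreeNonUnitalNonAssocAlgebra.lift_of_apply]
    have e2 := congrArg (fun χ => χ a) e
    exact e2.trans (ha _)

theorem converse {g : Free F}
    (hg : IsConsequence {polyF F, polyWA F, polyH F, polyI F, polyG1 F, polyG2 F} g) :
    IsMutationIdentity F g := by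
  intro P _ _ _ _ hP p q φ
  have h := hg _ (isTIdeal_ker (F := F) p q) (by
    intro a ha
    simp only [SetLike.mem_coe, Submodule.mem_iInf, LinearMap.mem_ker]
    intro φ
    change FreeNonUnitalNonAssocAlgebra.lift F φ a = 0
    rcases ha with rfl | rfl | rfl | rfl | rfl | rfl
    · rw [lift_F]; exact hold_F hP _ _ _
    · rw [lift_WA]; exact hold_WA hP _ _ _
    · rw [lift_H]; exact hold_H hP _ _ _ _
    · rw [lift_I]; exact hold_I hP _ _ _ _
    · rw [lift_G1]; exact hold_G1 hP _ _ _ _
    · rw [lift_G2]; exact hold_G2 hP _ _ _ _)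
  simp only [Submodule.mem_iInf, LinearMap.mem_ker] at h
  exact h φ

end Main

/-- **Identities of mutations of perm algebras.** Let `F` be a field of characteristic zero. For a
nonassociative polynomial `g` over `F` the following are equivalent: `g` is an identity of every
mutation of every perm algebra over `F`; `g` lies in the T-ideal generated by the six polynomials
`f, WA, H̄, Ī, g₁, g₂`; `g` lies in the T-ideal generated by the four polynomials
`f, WA, g₁, g₂`. -/
theorem result (F : Type u) [Field F] [CharZero F] (g : Free F) :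
    (IsMutationIdentity F g ↔
      IsConsequence {polyF F, polyWA F, polyH F, polyI F, polyG1 F, polyG2 F} g) ∧
    (IsMutationIdentity F g ↔ IsConsequence {polyF F, polyWA F, polyG1 F, polyG2 F} g) := by
  have mono : IsConsequence {polyF F, polyWA F, polyG1 F, polyG2 F} g →
      IsConsequence {polyF F, polyWA F, polyH F, polyI F, polyG1 F, polyG2 F} g := by
    intro h I hI hS
    refine h I hI (fun a ha => hS ?_)
    rcases ha with rfl | rfl | rfl | rfl <;> simp
  exact ⟨⟨fun h => mono (main h), converse⟩, ⟨main, fun h => converse (mono h)⟩⟩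

end Pool.Agent.Results.MP_e9cf85_al.PermMutations
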